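import Pool.Agent.K1H70.KR.Stm

/-! The linear algebra step for Krylov determinants (helper24, for helper70, project KR). -/

set_option autoImplicit false

namespace Pool.Agent.K1H24.KR.Det

open Finset Pool.Agent.K1H70.KR

section

variable {R : Type} [CommRing R] {m : ℕ}

/-- the rest of a vector -/
def tl (v : Fin (m + 1) → R) : Fin m → R := fun a => v a.succ

theorem tl_mulVec (A : Matrix (Fin (m + 1)) (Fin (m + 1)) R) (y : Fin (m + 1) → R) :
    tl (A.mulVec y) = (A.submatrix Fin.succ Fin.succ).mulVec (tl y) +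
      y 0 • (fun a : Fin m => A a.succ 0) := by
  funext a
  simp only [tl, Matrix.mulVec, dotProduct, Fin.sum_univ_succ, Pi.add_apply, Pi.smul_apply,
    smul_eq_mul, Matrix.submatrix_apply]
  ring

theorem tl_pow (A : Matrix (Fin (m + 1)) (Fin (m + 1)) R) (v : Fin (m + 1) → R) (i : ℕ) :
    tl ((A ^ i).mulVec v) = ((A.submatrix Fin.succ Fin.succ) ^ i).mulVec (tl v) +
      ∑ t ∈ range i, ((A ^ (i - 1 - t)).mulVec v) 0 •
        ((A.submatrix Fin.succ Fin.succ) ^ t).mulVec (fun a : Fin m => A a.succ 0) := by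
  induction i with
  | zero => simp
  | succ i ih =>
    rw [pow_succ', ← Matrix.mulVec_mulVec, tl_mulVec, ih, Matrix.mulVec_add, Matrix.mulVec_mulVec,
      ← pow_succ', Finset.sum_range_succ', Matrix.mulVec_sum]
    simp only [Matrix.mulVec_smul, Matrix.mulVec_mulVec, ← pow_succ']
    rw [add_assoc]
    congr 2
    · apply Finset.sum_congr rfl
      intro t _
      rw [show i + 1 - 1 - (t + 1) = i - 1 - t by omega]
    · simp

end

section

variable {m r : ℕ} (d : Fin r → ℕ) (j : Fin r)

/-- the new rows -/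
abbrev I' : Type := Σ l, Fin (Function.update d j (d j - 1) l)

variable {d j}

/-- the second index in the old matrix -/
def ii (q : I' d j) : ℕ := if q.1 = j then (q.2 : ℕ) + 1 else q.2

theorem upd_self : Function.update d j (d j - 1) j = d j - 1 := Function.update_self _ _ _

theorem ii_lt (q : I' d j) : ii q < d q.1 := by
  obtain ⟨l, i⟩ := q
  have hi := i.2
  unfold ii
  by_cases h : l = j
  · subst h
    have h2 : Function.update d l (d l - 1) l = d l - 1 := Function.update_self _ _ _
    simp only [if_true]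
    omega
  · have h2 : Function.update d j (d j - 1) l = d l := Function.update_of_ne h _ _
    simp only [if_neg h]
    omega

/-- the embedding of the rows -/
def φ (q : I' d j) : Σ l, Fin (d l) := ⟨q.1, ⟨ii q, ii_lt q⟩⟩

theorem φ_inj : Function.Injective (φ : I' d j → Σ l, Fin (d l)) := by
  rintro ⟨l, i⟩ ⟨l', i'⟩ h
  have h1 : l = l' := congrArg Sigma.fst h
  subst h1
  have h2 : ii (⟨l, i⟩ : I' d j) = ii (⟨l, i'⟩ : I' d j) := by
    have := congrArg (fun p : Σ l, Fin (d l) => (p.2 : ℕ)) h
    exact this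
  unfold ii at h2
  have h3 : (i : ℕ) = i' := by
    by_cases h : l = j
    · simp only [if_pos h] at h2
      omega
    · simp only [if_neg h] at h2
      exact h2
  have h4 : i = i' := Fin.ext h3
  rw [h4]

theorem φ_ne (hj : 0 < d j) (q : I' d j) : φ q ≠ ⟨j, ⟨0, hj⟩⟩ := by
  obtain ⟨l, i⟩ := q
  intro h
  have h1 : l = j := congrArg Sigma.fst h
  subst h1
  have h2 : ii (⟨l, i⟩ : I' d l) = 0 := by
    have := congrArg (fun p : Σ l, Fin (d l) => (p.2 : ℕ)) h
    exact this
  unfold ii at h2
  simp at h2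

theorem exists_ψ (e : (Σ j, Fin (d j)) ≃ Fin (m + 1)) (hj : 0 < d j) (e' : I' d j ≃ Fin m) :
    ∃ ψ : Fin m ≃ I' d j, ∀ b, (e ⟨j, ⟨0, hj⟩⟩).succAbove b = e (φ (ψ b)) := by
  have h1 : ∀ q : I' d j, ∃ b, (e ⟨j, ⟨0, hj⟩⟩).succAbove b = e (φ q) := by
    intro q
    apply Fin.exists_succAbove_eq
    intro h
    exact φ_ne hj q (e.injective h)
  choose g hg using h1
  have hinj : Function.Injective g := by
    intro q q' h
    apply φ_inj
    apply e.injective
    rw [← hg, ← hg, h]
  have hbij : Function.Bijective g := by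
    rw [Fintype.bijective_iff_injective_and_card]
    exact ⟨hinj, Fintype.card_congr e'⟩
  refine ⟨(Equiv.ofBijective g hbij).symm, fun b => ?_⟩
  rw [← hg]
  congr 1
  exact ((Equiv.ofBijective g hbij).apply_symm_apply b).symm

variable {R : Type} [CommRing R]

/-- the matrix of the combinations -/
def N (x : Fin (m + 1) × (Fin (m + 1) ⊕ Fin r) → R) : Matrix (I' d j) (I' d j) R :=
  Matrix.of fun q q' => if q'.1 = j then (if (q'.2 : ℕ) < q.2 then
    (((Matrix.of fun a b : Fin (m + 1) => x (a, Sum.inl b)) ^ (ii q - 1 - (q'.2 : ℕ))).mulVec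
      fun a => x (a, Sum.inr q.1)) 0 else 0) else 0

theorem row (hd : ∀ l, d l ≤ d j) (x : Fin (m + 1) × (Fin (m + 1) ⊕ Fin r) → R)
    (hx : ∀ a, x (a, Sum.inr j) = if a = 0 then 1 else 0) (q : I' d j) (c : Fin m) :
    kmat d x (φ q) c.succ = kmat (Function.update d j (d j - 1)) (nx j x) q c +
      ∑ q' : I' d j, N x q q' * kmat (Function.update d j (d j - 1)) (nx j x) q' c := by
  set A : Matrix (Fin (m + 1)) (Fin (m + 1)) R := Matrix.of fun a b => x (a, Sum.inl b) with hA
  have h1 : kmat d x (φ q) c.succ = tl ((A ^ ii q).mulVec fun a => x (a, Sum.inr q.1)) c := rfl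
  rw [h1, tl_pow, Fintype.sum_sigma]
  rw [Finset.sum_eq_single j]
  rotate_left
  · intro l _ hl
    apply Finset.sum_eq_zero
    intro i _
    simp only [N, Matrix.of_apply, if_neg hl, zero_mul]
  · simp
  simp only [N, Matrix.of_apply, if_true]
  have hK : ∀ t : Fin (Function.update d j (d j - 1) j),
      kmat (Function.update d j (d j - 1)) (nx j x) ⟨j, t⟩ c =
        ((A.submatrix Fin.succ Fin.succ) ^ (t : ℕ)).mulVec (fun a : Fin m => A a.succ 0) c := by
    intro t
    have : (fun a : Fin m => nx j x (a, Sum.inr j)) = fun a : Fin m => A a.succ 0 := by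
      funext a
      simp [nx, hA]
    simp only [kmat, Matrix.of_apply]
    rw [this]
    rfl
  simp only [hK]
  have hs := Fin.sum_univ_eq_sum_range (fun t : ℕ =>
    (if t < (q.2 : ℕ) then ((A ^ (ii q - 1 - t)).mulVec fun a => x (a, Sum.inr q.1)) 0 else 0) *
      ((A.submatrix Fin.succ Fin.succ) ^ t).mulVec (fun a : Fin m => A a.succ 0) c)
      (Function.update d j (d j - 1) j)
  rw [hs]
  have hle : (q.2 : ℕ) ≤ Function.update d j (d j - 1) j := by
    obtain ⟨l, i⟩ := q
    have hi := i.2
    simp only [Function.update_self]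
    by_cases h : l = j
    · subst h
      have h2 : Function.update d l (d l - 1) l = d l - 1 := Function.update_self _ _ _
      omega
    · have h2 : Function.update d j (d j - 1) l = d l := Function.update_of_ne h _ _
      have := hd l
      omega
  have hs2 : ∑ t ∈ range (Function.update d j (d j - 1) j),
      (if t < (q.2 : ℕ) then ((A ^ (ii q - 1 - t)).mulVec fun a => x (a, Sum.inr q.1)) 0 else 0) *
      ((A.submatrix Fin.succ Fin.succ) ^ t).mulVec (fun a : Fin m => A a.succ 0) c =
      ∑ t ∈ range (q.2 : ℕ), ((A ^ (ii q - 1 - t)).mulVec fun a => x (a, Sum.inr q.1)) 0 *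
      ((A.submatrix Fin.succ Fin.succ) ^ t).mulVec (fun a : Fin m => A a.succ 0) c := by
    symm
    have : range (q.2 : ℕ) ⊆ range (Function.update d j (d j - 1) j) := by
      intro t ht
      rw [mem_range] at ht ⊢
      omega
    rw [← Finset.sum_subset this]
    · apply Finset.sum_congr rfl
      intro t ht
      rw [mem_range] at ht
      rw [if_pos ht]
    · intro t _ ht
      rw [mem_range] at ht
      rw [if_neg ht, zero_mul]
  rw [hs2]
  obtain ⟨l, i⟩ := q
  by_cases h : l = j
  · subst h
    have hii : ii (⟨l, i⟩ : I' d l) = (i : ℕ) + 1 := by simp [ii]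
    rw [hii]
    have h0 : tl (fun a => x (a, Sum.inr l)) = (0 : Fin m → R) := by
      funext a
      simp [tl, hx]
    simp only [h0, Matrix.mulVec_zero, zero_add]
    rw [Finset.sum_range_succ]
    simp only [Pi.add_apply, Finset.sum_apply, Pi.smul_apply, smul_eq_mul]
    rw [hK]
    have h2 : ((A ^ ((i : ℕ) + 1 - 1 - (i : ℕ))).mulVec fun a => x (a, Sum.inr l)) 0 = 1 := by
      have : (i : ℕ) + 1 - 1 - (i : ℕ) = 0 := by omega
      rw [this]
      simp [hx]
    rw [h2, one_mul, add_comm]
  · have hii : ii (⟨l, i⟩ : I' d j) = (i : ℕ) := by simp [ii, h]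
    rw [hii]
    simp only [Pi.add_apply, Finset.sum_apply, Pi.smul_apply, smul_eq_mul]
    congr 1
    have : (fun a : Fin m => nx j x (a, Sum.inr l)) = tl (fun a => x (a, Sum.inr l)) := by
      funext a
      simp [nx, tl, h]
    simp only [kmat, Matrix.of_apply]
    rw [this]
    rfl

theorem det_one_add_N (x : Fin (m + 1) × (Fin (m + 1) ⊕ Fin r) → R) :
    (1 + (N x : Matrix (I' d j) (I' d j) R)).det = 1 := by
  have hb : (1 + (N x : Matrix (I' d j) (I' d j) R)).BlockTriangular
      (fun q => OrderDual.toDual (q.2 : ℕ)) := by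
    intro q q' h
    have h1 : (q.2 : ℕ) < q'.2 := h
    have h2 : q ≠ q' := by
      rintro rfl
      exact lt_irrefl _ h1
    rw [Matrix.add_apply, Matrix.one_apply_ne h2, zero_add]
    simp only [N, Matrix.of_apply]
    rw [if_neg (by omega : ¬ (q'.2 : ℕ) < q.2)]
    simp
  rw [hb.det]
  apply Finset.prod_eq_one
  intro a _
  have : (1 + (N x : Matrix (I' d j) (I' d j) R)).toSquareBlock
      (fun q => OrderDual.toDual (q.2 : ℕ)) a = 1 := by
    ext q q'
    have h1 : ((q : I' d j).2 : ℕ) = (q' : I' d j).2 := by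
      have h2 := q.2
      have h3 := q'.2
      have h4 : OrderDual.toDual ((q : I' d j).2 : ℕ) = OrderDual.toDual ((q' : I' d j).2 : ℕ) :=
        h2.trans h3.symm
      exact OrderDual.toDual.injective h4
    rw [Matrix.toSquareBlock_def, Matrix.of_apply, Matrix.add_apply]
    have hN : N x (q : I' d j) (q' : I' d j) = 0 := by
      simp only [N, Matrix.of_apply]
      rw [if_neg (by omega : ¬ ((q' : I' d j).2 : ℕ) < (q : I' d j).2)]
      simp
    rw [hN, add_zero]
    rw [Matrix.one_apply, Matrix.one_apply]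
    by_cases h : q = q'
    · rw [if_pos h, if_pos (congrArg Subtype.val h)]
    · rw [if_neg h, if_neg (fun h' => h (Subtype.ext h'))]
  rw [this, Matrix.det_one]

end

end Pool.Agent.K1H24.KR.Det

namespace Pool.Agent.K1H24.KR

open Finset Pool.Agent.K1H70.KR

theorem t_DET : S_DET := by
  intro m r d e j hj hd e'
  obtain ⟨ψ, hψ⟩ := Det.exists_ψ e hj e'
  set a0 := e ⟨j, ⟨0, hj⟩⟩ with ha0
  refine ⟨(-1) ^ (a0 : ℕ) * ((Equiv.Perm.sign (ψ.trans e') : ℤˣ) : ℤ), ?_, ?_⟩
  · rcases neg_one_pow_eq_or ℤ (a0 : ℕ) with h | h <;>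
      rcases Int.units_eq_one_or (Equiv.Perm.sign (ψ.trans e')) with h' | h' <;>
      simp [h, h']
  · intro R _ x hx
    rw [kdet, Matrix.det_succ_row _ a0, Finset.sum_eq_single 0]
    rotate_left
    · intro b _ hb
      have : ((kmat d x).submatrix e.symm id) a0 b = 0 := by
        simp only [Matrix.submatrix_apply, id_eq, ha0, Equiv.symm_apply_apply, kmat,
          Matrix.of_apply, pow_zero, Matrix.one_mulVec, hx, if_neg hb]
      rw [this]
      ring
    · simp
    have h0 : ((kmat d x).submatrix e.symm id) a0 0 = 1 := by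
      simp only [Matrix.submatrix_apply, id_eq, ha0, Equiv.symm_apply_apply, kmat,
        Matrix.of_apply, pow_zero, Matrix.one_mulVec, hx, if_true]
    rw [h0]
    have hminor : ((kmat d x).submatrix e.symm id).submatrix a0.succAbove (Fin.succAbove 0) =
        ((1 + (Det.N x : Matrix (Det.I' d j) (Det.I' d j) R)) *
          kmat (Function.update d j (d j - 1)) (nx j x)).submatrix ψ id := by
      ext b c
      simp only [Matrix.submatrix_apply, id_eq]
      rw [hψ b, Equiv.symm_apply_apply, Fin.zero_succAbove, Det.row hd x hx, Matrix.add_mul,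
        Matrix.one_mul, Matrix.add_apply, Matrix.mul_apply]
    rw [hminor]
    have h1 : ((1 + (Det.N x : Matrix (Det.I' d j) (Det.I' d j) R)) *
          kmat (Function.update d j (d j - 1)) (nx j x)).submatrix ψ id =
        ((1 + (Det.N x : Matrix (Det.I' d j) (Det.I' d j) R)).submatrix ψ ψ) *
          (((kmat (Function.update d j (d j - 1)) (nx j x)).submatrix e'.symm id).submatrix
            (ψ.trans e') id) := by
      rw [← Matrix.submatrix_mul_equiv _ _ ψ ψ id]
      congr 1
      ext b c
      simp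
    rw [h1, Matrix.det_mul, Matrix.det_submatrix_equiv_self, Det.det_one_add_N, Matrix.det_permute,
      kdet]
    push_cast
    simp only [Fin.val_zero, add_zero]
    ring

end Pool.Agent.K1H24.KR
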