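import Pool.Agent.K1H70.KR.Stm

/-! Fischer pairing: adjoints and fewer variables (helper24, for helper70, project KR). -/

set_option autoImplicit false

namespace Pool.Agent.K1H24.KR

open MvPolynomial Pool.Agent.K1H70.KR

variable {σ σ' : Type}

/-! ### The Fischer pairing -/

theorem fis_comm (f g : MvPolynomial σ ℂ) : fis f g = fis g f := by
  classical
  induction f using MvPolynomial.induction_on' with
  | add p q hp hq => rw [map_add, LinearMap.add_apply, hp, hq, map_add]
  | monomial α c =>
    induction g using MvPolynomial.induction_on' with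
    | add p q hp hq => rw [map_add, hp, hq, map_add, LinearMap.add_apply]
    | monomial β d =>
      rw [fis_monomial, fis_monomial, coeff_monomial, coeff_monomial]
      by_cases h : α = β
      · subst h
        rw [if_pos rfl, if_pos rfl]
        ring
      · rw [if_neg h, if_neg (fun h' => h h'.symm)]
        ring

theorem prod_factorial (α : σ →₀ ℕ) (u : σ) :
    ((Finsupp.single u 1 + α).prod fun _ k => (k.factorial : ℂ)) =
      (α.prod fun _ k => (k.factorial : ℂ)) * ((α u : ℂ) + 1) := by
  classical
  have hs1 : (Finsupp.single u 1 + α).support ⊆ insert u α.support := by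
    intro i hi
    rw [Finsupp.mem_support_iff, Finsupp.add_apply] at hi
    rw [Finset.mem_insert, Finsupp.mem_support_iff]
    by_cases h : i = u
    · exact Or.inl h
    · right
      rwa [Finsupp.single_eq_of_ne h, zero_add] at hi
  rw [Finsupp.prod_of_support_subset _ hs1 _ (by simp),
    Finsupp.prod_of_support_subset α (Finset.subset_insert u α.support) _ (by simp),
    ← Finset.mul_prod_erase (insert u α.support) _ (Finset.mem_insert_self u _),
    ← Finset.mul_prod_erase (insert u α.support)
      (fun x => ((α x).factorial : ℂ)) (Finset.mem_insert_self u _)]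
  have h1 : ∏ x ∈ (insert u α.support).erase u, (((Finsupp.single u 1 + α : σ →₀ ℕ) x).factorial : ℂ) =
      ∏ x ∈ (insert u α.support).erase u, ((α x).factorial : ℂ) := by
    apply Finset.prod_congr rfl
    intro x hx
    rw [Finsupp.add_apply, Finsupp.single_eq_of_ne (Finset.ne_of_mem_erase hx), zero_add]
  rw [h1, Finsupp.add_apply, Finsupp.single_eq_same, add_comm 1 (α u), Nat.factorial_succ]
  push_cast
  ring

theorem fis_X_mul (u : σ) (f g : MvPolynomial σ ℂ) : fis (X u * f) g = fis f (pderiv u g) := by
  induction f using MvPolynomial.induction_on' with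
  | add p q hp hq =>
    rw [mul_add, map_add, LinearMap.add_apply, hp, hq, map_add, LinearMap.add_apply]
  | monomial α c =>
    rw [X, monomial_mul, one_mul, fis_monomial, fis_monomial, coeff_pderiv, prod_factorial,
      add_comm (Finsupp.single u 1) α]
    ring

/-- exchange multiplications and derivatives -/
def sw : σ ⊕ σ → σ ⊕ σ := Sum.swap

theorem fis_gen (a : σ ⊕ σ) (f g : MvPolynomial σ ℂ) : fis (gen a f) g = fis f (gen (sw a) g) := by
  rcases a with u | u
  · exact fis_X_mul u f g
  · have h : fis (pderiv u f) g = fis f (X u * g) := by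
      rw [fis_comm, ← fis_X_mul, fis_comm]
    exact h

theorem fis_rename (j : σ' → σ) (hj : Function.Injective j) (g h : MvPolynomial σ' ℂ) :
    fis (rename j g) (rename j h) = fis g h := by
  induction g using MvPolynomial.induction_on' with
  | add p q hp hq => rw [map_add, map_add, LinearMap.add_apply, hp, hq, map_add, LinearMap.add_apply]
  | monomial α c =>
    rw [rename_monomial, fis_monomial, fis_monomial, Finsupp.prod_mapDomain_index_inj hj,
      coeff_rename_mapDomain j hj]

theorem fis_killCompl (j : σ' → σ) (hj : Function.Injective j) (g : MvPolynomial σ' ℂ)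
    (p : MvPolynomial σ ℂ) : fis (rename j g) p = fis g (killCompl hj p) := by
  induction g using MvPolynomial.induction_on' with
  | add q q' hq hq' =>
    rw [map_add, map_add, LinearMap.add_apply, hq, hq', map_add, LinearMap.add_apply]
  | monomial α c =>
    rw [rename_monomial, fis_monomial, fis_monomial, Finsupp.prod_mapDomain_index_inj hj,
      coeff_killCompl]

/-! ### The Weyl algebra -/

theorem wd_nil : (wd [] : Module.End ℂ (MvPolynomial σ ℂ)) = 1 := rfl

theorem wd_cons (a : σ ⊕ σ) (w : List (σ ⊕ σ)) : wd (a :: w) = gen a * wd w := by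
  simp [wd]

theorem wd_append (w w' : List (σ ⊕ σ)) : wd (w ++ w') = wd w * wd w' := by
  simp [wd]

theorem wd_mem (w : List (σ ⊕ σ)) : wd w ∈ W σ := Submodule.subset_span ⟨w, rfl⟩

theorem W_one : (1 : Module.End ℂ (MvPolynomial σ ℂ)) ∈ W σ := wd_mem []

theorem gen_mem (a : σ ⊕ σ) : gen a ∈ W σ := by
  have h : wd [a] = gen a := by simp [wd]
  rw [← h]
  exact wd_mem [a]

theorem W_mul {P Q : Module.End ℂ (MvPolynomial σ ℂ)} (hP : P ∈ W σ) (hQ : Q ∈ W σ) :
    P * Q ∈ W σ := by
  unfold W at hP
  induction hP using Submodule.span_induction with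
  | mem x hx =>
    obtain ⟨w, rfl⟩ := hx
    unfold W at hQ
    induction hQ using Submodule.span_induction with
    | mem y hy =>
      obtain ⟨w', rfl⟩ := hy
      rw [← wd_append]
      exact wd_mem _
    | zero => rw [mul_zero]; exact Submodule.zero_mem _
    | add y z _ _ hy hz => rw [mul_add]; exact Submodule.add_mem _ hy hz
    | smul c y _ hy => rw [mul_smul_comm]; exact Submodule.smul_mem _ _ hy
  | zero => rw [zero_mul]; exact Submodule.zero_mem _
  | add y z _ _ hy hz => rw [add_mul]; exact Submodule.add_mem _ hy hz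
  | smul c y _ hy => rw [smul_mul_assoc]; exact Submodule.smul_mem _ _ hy

theorem mulLeft_mem (p : MvPolynomial σ ℂ) :
    (LinearMap.mulLeft ℂ p : Module.End ℂ (MvPolynomial σ ℂ)) ∈ W σ := by
  induction p using MvPolynomial.induction_on with
  | C a =>
    have h : (LinearMap.mulLeft ℂ (C a) : Module.End ℂ (MvPolynomial σ ℂ)) = a • 1 := by
      ext1 x
      apply LinearMap.ext
      intro y
      simp [MvPolynomial.C_mul']
    rw [h]
    exact Submodule.smul_mem _ _ W_one
  | add p q hp hq =>
    have h : (LinearMap.mulLeft ℂ (p + q) : Module.End ℂ (MvPolynomial σ ℂ)) =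
        LinearMap.mulLeft ℂ p + LinearMap.mulLeft ℂ q := by
      apply LinearMap.ext
      intro y
      simp [add_mul]
    rw [h]
    exact Submodule.add_mem _ hp hq
  | mul_X p u hp =>
    have h : (LinearMap.mulLeft ℂ (p * X u) : Module.End ℂ (MvPolynomial σ ℂ)) =
        LinearMap.mulLeft ℂ p * gen (Sum.inl u) := by
      apply LinearMap.ext
      intro y
      simp [gen, Module.End.mul_apply]
    rw [h]
    exact W_mul hp (gen_mem _)

theorem W_adj {Q : Module.End ℂ (MvPolynomial σ ℂ)} (hQ : Q ∈ W σ) :
    ∃ Q' ∈ W σ, ∀ f g : MvPolynomial σ ℂ, fis (Q f) g = fis f (Q' g) := by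
  unfold W at hQ
  induction hQ using Submodule.span_induction with
  | mem x hx =>
    obtain ⟨w, rfl⟩ := hx
    induction w with
    | nil => exact ⟨1, W_one, fun f g => rfl⟩
    | cons a w ih =>
      obtain ⟨Q', hQ', h⟩ := ih
      refine ⟨Q' * gen (sw a), W_mul hQ' (gen_mem _), fun f g => ?_⟩
      rw [wd_cons, Module.End.mul_apply, Module.End.mul_apply, fis_gen, h]
  | zero => exact ⟨0, Submodule.zero_mem _, fun f g => by simp⟩
  | add y z _ _ hy hz =>
    obtain ⟨Q1, h1, h1'⟩ := hy
    obtain ⟨Q2, h2, h2'⟩ := hz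
    refine ⟨Q1 + Q2, Submodule.add_mem _ h1 h2, fun f g => ?_⟩
    rw [LinearMap.add_apply, map_add, LinearMap.add_apply, h1', h2', LinearMap.add_apply, map_add]
  | smul c y _ hy =>
    obtain ⟨Q1, h1, h1'⟩ := hy
    refine ⟨c • Q1, Submodule.smul_mem _ _ h1, fun f g => ?_⟩
    rw [LinearMap.smul_apply, map_smul, LinearMap.smul_apply, h1', LinearMap.smul_apply, map_smul]

/-! ### Fewer variables -/

/-- the span of the maps `h ↦ p * rename j (Q' h)` -/
noncomputable def TT (j : σ' → σ) : Submodule ℂ (MvPolynomial σ' ℂ →ₗ[ℂ] MvPolynomial σ ℂ) :=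
  Submodule.span ℂ {t | ∃ p : MvPolynomial σ ℂ, ∃ Q' ∈ W σ', ∀ h, t h = p * rename j (Q' h)}

theorem gen_comp_mem {j : σ' → σ} (hj : Function.Injective j) (a : σ ⊕ σ)
    {t : MvPolynomial σ' ℂ →ₗ[ℂ] MvPolynomial σ ℂ} (ht : t ∈ TT j) : (gen a).comp t ∈ TT j := by
  unfold TT at ht
  induction ht using Submodule.span_induction with
  | mem t ht =>
    obtain ⟨p, Q', hQ', hp⟩ := ht
    rcases a with u | u
    · apply Submodule.subset_span
      refine ⟨X u * p, Q', hQ', fun h => ?_⟩
      rw [LinearMap.comp_apply, hp]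
      simp [gen, mul_assoc]
    · have hd : ∀ h, (gen (Sum.inr u)).comp t h =
          pderiv u p * rename j (Q' h) + p * pderiv u (rename j (Q' h)) := by
        intro h
        rw [LinearMap.comp_apply, hp]
        exact pderiv_mul
      by_cases hu : u ∈ Set.range j
      · obtain ⟨u', rfl⟩ := hu
        let t1 : MvPolynomial σ' ℂ →ₗ[ℂ] MvPolynomial σ ℂ :=
          (LinearMap.mulLeft ℂ (pderiv (j u') p)).comp ((rename j).toLinearMap.comp Q')
        let t2 : MvPolynomial σ' ℂ →ₗ[ℂ] MvPolynomial σ ℂ :=
          (LinearMap.mulLeft ℂ p).comp ((rename j).toLinearMap.comp (gen (Sum.inr u') * Q'))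
        have h1 : (gen (Sum.inr (j u'))).comp t = t1 + t2 := by
          apply LinearMap.ext
          intro h
          rw [hd, LinearMap.add_apply, pderiv_rename hj]
          rfl
        rw [h1]
        apply Submodule.add_mem
        · exact Submodule.subset_span ⟨pderiv (j u') p, Q', hQ', fun h => rfl⟩
        · exact Submodule.subset_span ⟨p, gen (Sum.inr u') * Q', W_mul (gen_mem _) hQ',
            fun h => rfl⟩
      · apply Submodule.subset_span
        refine ⟨pderiv u p, Q', hQ', fun h => ?_⟩
        rw [hd]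
        have h0 : pderiv u (rename j (Q' h)) = 0 := by
          apply pderiv_eq_zero_of_notMem_vars
          intro hmem
          classical
          have := vars_rename j (Q' h) hmem
          rw [Finset.mem_image] at this
          obtain ⟨v, _, hv⟩ := this
          exact hu ⟨v, hv⟩
        rw [h0, mul_zero, add_zero]
  | zero => rw [LinearMap.comp_zero]; exact Submodule.zero_mem _
  | add y z _ _ hy hz => rw [LinearMap.comp_add]; exact Submodule.add_mem _ hy hz
  | smul c y _ hy => rw [LinearMap.comp_smul]; exact Submodule.smul_mem _ _ hy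

theorem comp_mem {j : σ' → σ} (hj : Function.Injective j) {Q : Module.End ℂ (MvPolynomial σ ℂ)}
    (hQ : Q ∈ W σ) : Q.comp (rename j).toLinearMap ∈ TT j := by
  unfold W at hQ
  induction hQ using Submodule.span_induction with
  | mem x hx =>
    obtain ⟨w, rfl⟩ := hx
    induction w with
    | nil =>
      apply Submodule.subset_span
      refine ⟨1, 1, W_one, fun h => ?_⟩
      rw [wd_nil, one_mul]
      rfl
    | cons a w ih =>
      have h1 : (wd (a :: w)).comp (rename j).toLinearMap =
          (gen a).comp ((wd w).comp (rename j : MvPolynomial σ' ℂ →ₐ[ℂ] _).toLinearMap) := by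
        rw [wd_cons]
        rfl
      rw [h1]
      exact gen_comp_mem hj a ih
  | zero => rw [LinearMap.zero_comp]; exact Submodule.zero_mem _
  | add y z _ _ hy hz => rw [LinearMap.add_comp]; exact Submodule.add_mem _ hy hz
  | smul c y _ hy => rw [LinearMap.smul_comp]; exact Submodule.smul_mem _ _ hy

theorem exists_of_mem {j : σ' → σ} (hj : Function.Injective j)
    {t : MvPolynomial σ' ℂ →ₗ[ℂ] MvPolynomial σ ℂ} (ht : t ∈ TT j) :
    ∃ Q' ∈ W σ', ∀ g h : MvPolynomial σ' ℂ, fis (rename j g) (t h) = fis g (Q' h) := by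
  unfold TT at ht
  induction ht using Submodule.span_induction with
  | mem t ht =>
    obtain ⟨p, Q', hQ', hp⟩ := ht
    refine ⟨LinearMap.mulLeft ℂ (killCompl hj p) * Q', W_mul (mulLeft_mem _) hQ', fun g h => ?_⟩
    rw [fis_killCompl j hj, hp, map_mul, killCompl_rename_app]
    rfl
  | zero => exact ⟨0, Submodule.zero_mem _, fun f g => by simp⟩
  | add y z _ _ hy hz =>
    obtain ⟨Q1, h1, h1'⟩ := hy
    obtain ⟨Q2, h2, h2'⟩ := hz
    refine ⟨Q1 + Q2, Submodule.add_mem _ h1 h2, fun f g => ?_⟩
    rw [LinearMap.add_apply, map_add, h1', h2', LinearMap.add_apply, map_add]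
  | smul c y _ hy =>
    obtain ⟨Q1, h1, h1'⟩ := hy
    refine ⟨c • Q1, Submodule.smul_mem _ _ h1, fun f g => ?_⟩
    rw [LinearMap.smul_apply, map_smul, h1', LinearMap.smul_apply, map_smul]

theorem t_RED : S_RED := by
  intro σ' σ j hj Q hQ
  exact exists_of_mem hj (comp_mem hj hQ)

end Pool.Agent.K1H24.KR
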